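import Pool.Agent.BhU16.Table

/-!
# Upper bounds for `B_h`-sets in an interval, all `h ≥ 5`

With `k = ⌈h / 2⌉` and `m = ⌊h / 2⌋`: `limsup R_h(n)^h / n ≤ 4^k k! m! / (C(2k, k) + 2)`.

Proof. Let `A ⊆ {1, ..., n}` be a `B_h`-set. The number of solutions of
`a_1 + ... + a_k + s = b_1 + ... + b_k + t` (`a_i, b_i ∈ A`, `0 ≤ s, t < u`) is at most
`k! k! u²` (`k! m! |A| u²` if `h` is odd) up to lower order terms. By Parseval on `ℤ / N`,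
`N = k n + u`, it equals `(1 / N) ∑_j |Â(j)|^{2k} |D̂(j)|²`, and `|Â(j)| ≥ |A| cos(π j / k)`
for `j < k / 2`; finally `∑_{j < k} cos(π j / k)^{2k} = k (C(2k, k) + 2) / 4^k`.
-/

namespace Pool.Agent.Results.MP_75cb96_nt.AllH

open Filter Pool.Agent.BhU16

theorem result (h : ℕ) (_h5 : 5 ≤ h) {ε : ℝ} (hε : 0 < ε) :
    ∀ᶠ n : ℕ in atTop, (R h n : ℝ) ^ h ≤
      (4 ^ ((h + 1) / 2) * (((h + 1) / 2).factorial : ℝ) * (h / 2).factorial /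
        ((2 * ((h + 1) / 2)).choose ((h + 1) / 2) + 2) + ε) * n := by
  obtain ⟨m, hm⟩ : ∃ m, (h + 1) / 2 = m + 1 := ⟨(h + 1) / 2 - 1, by omega⟩
  have hg := gain_cos m
  have hm0 : (0 : ℝ) < (m : ℝ) + 1 := by positivity
  have h0 : 0 ≤ gain m (m / 2) (qc m)
      (4 * (m + 1) * ∑ j ∈ Finset.Icc 1 (m / 2), qc m j ^ (2 * m + 2)) := by
    have h1 : 0 ≤ ∑ j ∈ Finset.Icc 1 (m / 2), qc m j ^ (2 * m + 2) :=
      Finset.sum_nonneg fun j _ => Even.pow_nonneg ⟨m + 1, by ring⟩ _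
    rw [gain]
    have h2 : (4 * ((m : ℝ) + 1) * ∑ j ∈ Finset.Icc 1 (m / 2), qc m j ^ (2 * m + 2)) -
        2 * (2 * m + 1) * ∑ j ∈ Finset.Icc 1 (m / 2), qc m j ^ (2 * m + 2) =
        2 * ∑ j ∈ Finset.Icc 1 (m / 2), qc m j ^ (2 * m + 2) := by ring
    rw [h2]
    positivity
  have h1 := upper (cert_cos m) h0 hm hε
  rw [hg] at h1
  rw [hm]
  filter_upwards [h1] with n hn
  refine hn.trans (le_of_eq ?_)
  congr 2
  field_simp

end Pool.Agent.Results.MP_75cb96_nt.AllH
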