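import Pool.Agent.BhU16.Table

/-!
# Upper bounds for `B_h`-sets in an interval, `5 ≤ h ≤ 20`

With `k = ⌈h / 2⌉` and `m = ⌊h / 2⌋`: `limsup R_h(n)^h / n ≤ k! m! k / f_k`, where
`f_3, ..., f_10 = 1.266, 1.376, 1.480, 1.585, 1.679, 1.774, 1.855, 1.941`.

Proof. Let `A ⊆ {1, ..., n}` be a `B_h`-set. The number of solutions of
`a_1 + ... + a_k + s = b_1 + ... + b_k + t` (`a_i, b_i ∈ A`, `0 ≤ s, t < u`) is at most
`k! k! u²` (`k! m! |A| u²` if `h` is odd) up to lower order terms. By Parseval on `ℤ / N`,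
`N = k n + u`, it equals `(1 / N) ∑_j |Â(j)|^{2k} |D̂(j)|²`. The terms `j ≠ 0` are bounded
below by convex duality: `x^{2k} ≥ 2k q^{2k-1} x - (2k-1) q^{2k}` and a cosine polynomial with
coefficients `4k q_j^{2k-1}` which is at least `τ` on `[-π/k, π/k]`; the numbers `q_j` are
explicit, and the inequality for the cosine polynomial is checked with Bernstein coefficients.
-/

namespace Pool.Agent.Results.MP_75cb96_nt.UpTo20

open Filter Pool.Agent.BhU16

theorem result (h : ℕ) (h5 : 5 ≤ h) (h20 : h ≤ 20) :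
    ∀ᶠ n : ℕ in atTop, (R h n : ℝ) ^ h ≤
      (((h + 1) / 2).factorial : ℝ) * (h / 2).factorial * ((h + 1) / 2 : ℕ) / fac ((h + 1) / 2) *
        n :=
  table h5 h20

end Pool.Agent.Results.MP_75cb96_nt.UpTo20
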